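import Pool.Agent.N236.RT.App

/-!
# RT/DIV (project RT, subtask 4431)

In a division algebra of odd dimension, an element of norm one which is not a root of unity has two
multiplicatively independent conjugates. Proof without heights: if `y` and `z = σ y` are dependent
conjugates, iteration of `σ` shows that the two exponents have the same absolute value, so `z` is a
root of unity times `y` or `y⁻¹`; the product of the (odd number of) conjugates is a root of unity.
-/

set_option autoImplicit false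

namespace Pool.Agent.N42.RT

open Module
open Pool.Agent.N236.RT (Unt Ind S_DIV)

/-- the norm of left multiplication by an element of a subfield -/
theorem norm_pow {L F Dv : Type} [Field L] [Field F] [Algebra L F] [Ring Dv] [Algebra L Dv]
    [Module F Dv] [IsScalarTower L F Dv] [FiniteDimensional L F] (r : F) (x : Dv)
    (h : ∀ d : Dv, r • d = x * d) : Algebra.norm L x = (Algebra.norm L r) ^ finrank F Dv := by
  have h1 : (LinearMap.mulLeft L x) = (r • (LinearMap.id : Dv →ₗ[F] Dv)).restrictScalars L := by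
    ext d
    simp [h]
  rw [Algebra.norm_apply]
  have h2 : (Algebra.lmul L Dv x : Dv →ₗ[L] Dv) = LinearMap.mulLeft L x := by
    ext d; simp
  rw [h2, h1, LinearMap.det_restrictScalars, LinearMap.det_smul, LinearMap.det_id, mul_one, map_pow]

/-- the product of the roots of the minimal polynomial -/
theorem prod_roots {L Dv : Type} [Field L] [DivisionRing Dv] [Algebra L Dv]
    [FiniteDimensional L Dv] (x : Dv) (hn : Algebra.norm L x = 1) :
    ∃ t : ℕ, finrank L Dv = (minpoly L x).natDegree * t ∧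
      ((minpoly L x).aroots (AlgebraicClosure L)).prod ^ t = 1 := by
  have hint : IsIntegral L x := Algebra.IsIntegral.isIntegral x
  have hirr : Irreducible (minpoly L x) := minpoly.irreducible hint
  have : Fact (Irreducible (minpoly L x)) := ⟨hirr⟩
  have hne : minpoly L x ≠ 0 := hirr.ne_zero
  obtain ⟨φ, hφ⟩ : ∃ φ : AdjoinRoot (minpoly L x) →+* Dv,
      ∀ q : Polynomial L, φ (AdjoinRoot.mk _ q) = Polynomial.aeval x q := by
    refine ⟨Ideal.Quotient.lift (Ideal.span {minpoly L x})
      ((Polynomial.aeval x : Polynomial L →ₐ[L] Dv) : Polynomial L →+* Dv) ?_, fun q => rfl⟩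
    intro a ha
    obtain ⟨b, rfl⟩ := Ideal.mem_span_singleton'.1 ha
    simp
  let : Module (AdjoinRoot (minpoly L x)) Dv := Module.compHom Dv φ
  have hsm : ∀ (f : AdjoinRoot (minpoly L x)) (d : Dv), f • d = φ f * d := fun _ _ => rfl
  have hφa : ∀ c : L, φ (algebraMap L _ c) = algebraMap L Dv c := by
    intro c
    rw [AdjoinRoot.algebraMap_eq, ← AdjoinRoot.mk_C, hφ, Polynomial.aeval_C]
  have : IsScalarTower L (AdjoinRoot (minpoly L x)) Dv := ⟨fun c f d => by
    rw [hsm, hsm, Algebra.smul_def, map_mul, hφa, mul_assoc, Algebra.smul_def]⟩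
  let pb := AdjoinRoot.powerBasis hne
  have : FiniteDimensional L (AdjoinRoot (minpoly L x)) := pb.finite
  have hfr : finrank L (AdjoinRoot (minpoly L x)) = (minpoly L x).natDegree := by
    rw [pb.finrank, AdjoinRoot.powerBasis_dim]
  refine ⟨finrank (AdjoinRoot (minpoly L x)) Dv, ?_, ?_⟩
  · rw [← hfr, Module.finrank_mul_finrank]
  · have h1 := norm_pow (L := L) (AdjoinRoot.root (minpoly L x)) x (fun d => by
      rw [hsm, ← AdjoinRoot.mk_X, hφ, Polynomial.aeval_X])
    rw [hn] at h1
    have h2 : minpoly L pb.gen = minpoly L x := by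
      show minpoly L (AdjoinRoot.powerBasis hne).gen = _
      rw [AdjoinRoot.powerBasis_gen, AdjoinRoot.minpoly_root hne, (minpoly.monic hint).leadingCoeff]
      simp
    have h3 := Algebra.PowerBasis.norm_gen_eq_prod_roots (F := AlgebraicClosure L) pb
      (IsAlgClosed.splits _)
    rw [h2] at h3
    rw [← h3]
    have h4 : pb.gen = AdjoinRoot.root (minpoly L x) := AdjoinRoot.powerBasis_gen hne
    rw [h4, ← map_pow, ← h1, map_one]

section
variable {L Ω : Type} [Field L] [Field Ω] [Algebra L Ω]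

/-- `y` is not a root of unity -/
def NT (y : Ω) : Prop := ∀ n : ℕ, 0 < n → y ^ n ≠ 1

omit [Field L] [Algebra L Ω] in
theorem NT.zpow {y : Ω} (hy : NT y) {k : ℤ} (hk : y ^ k = 1) : k = 0 := by
  by_contra h
  have h1 : 0 < k.natAbs := Int.natAbs_pos.2 h
  apply hy k.natAbs h1
  rcases Int.natAbs_eq k with h2 | h2
  · rw [h2, zpow_natCast] at hk; exact hk
  · rw [h2, zpow_neg, zpow_natCast, inv_eq_one] at hk; exact hk

/-- dependent conjugates: the exponents have the same absolute value -/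
theorem abs_eq {y z : Ω} (hy : NT y) (h0 : y ≠ 0) (σ : Ω ≃ₐ[L] Ω) (hσ : σ y = z)
    (q : ℕ) (hq : 0 < q) (hq' : (σ ^ q) y = y) (a b : ℤ) (hab : y ^ a * z ^ b = 1) :
    |a| = |b| := by
  have hz0 : z ≠ 0 := by rw [← hσ]; simpa using h0
  have h1 : y ^ a = z ^ (-b) := by
    rw [zpow_neg]
    exact eq_inv_of_mul_eq_one_left hab
  have key : ∀ k : ℕ, y ^ (a ^ k) = ((σ ^ k) y) ^ ((-b) ^ k) := by
    intro k
    induction k with
    | zero => simp
    | succ k ih =>
      have h2 : (σ ^ k) z = (σ ^ (k + 1)) y := by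
        rw [← hσ, pow_succ]; rfl
      calc y ^ (a ^ (k + 1)) = (y ^ (a ^ k)) ^ a := by rw [pow_succ, zpow_mul]
        _ = (((σ ^ k) y) ^ a) ^ ((-b) ^ k) := by rw [ih, ← zpow_mul, ← zpow_mul, mul_comm]
        _ = ((σ ^ k) (y ^ a)) ^ ((-b) ^ k) := by rw [map_zpow₀]
        _ = (((σ ^ (k + 1)) y) ^ (-b)) ^ ((-b) ^ k) := by rw [h1, map_zpow₀, h2]
        _ = _ := by rw [← zpow_mul, pow_succ (-b) k, mul_comm]
  have h2 := key q
  rw [hq'] at h2
  have h3 : y ^ (a ^ q - (-b) ^ q) = 1 := by
    rw [zpow_sub₀ h0, h2, div_self (zpow_ne_zero _ h0)]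
  have h4 : a ^ q = (-b) ^ q := by linarith [hy.zpow h3]
  have h5 : |a| ^ q = |b| ^ q := by rw [← abs_pow, h4, abs_pow, abs_neg]
  exact (pow_left_inj₀ (abs_nonneg a) (abs_nonneg b) hq.ne').1 h5

/-- dependent conjugates: one of them is a root of unity times the other or its inverse -/
theorem tors {y z : Ω} (hy : NT y) (h0 : y ≠ 0)
    (σ : Ω ≃ₐ[L] Ω) (hσ : σ y = z) (q : ℕ) (hq : 0 < q) (hq' : (σ ^ q) y = y)
    (hd : ¬ ∀ r s : ℤ, y ^ r * z ^ s = 1 → r = 0 ∧ s = 0) :
    ∃ (e : ℤ) (k : ℕ), Odd e ∧ 0 < k ∧ e.natAbs = 1 ∧ (z ^ k = y ^ (e * k)) := by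
  push Not at hd
  obtain ⟨r, s, h1, h2⟩ := hd
  have h3 := abs_eq hy h0 σ hσ q hq hq' r s h1
  have hr : r ≠ 0 := by
    intro hr
    rw [hr, abs_zero] at h3
    exact h2 hr (abs_eq_zero.1 h3.symm)
  have hk : 0 < r.natAbs := Int.natAbs_pos.2 hr
  have hyz : y ^ r = z ^ (-s) := by
    rw [zpow_neg]
    exact eq_inv_of_mul_eq_one_left h1
  rcases abs_eq_abs.1 h3 with h4 | h4
  · -- r = s
    refine ⟨-1, r.natAbs, by decide, hk, by decide, ?_⟩
    rcases Int.natAbs_eq r with h5 | h5
    · rw [← zpow_natCast, ← h5, neg_one_mul, zpow_neg, hyz, ← h4, zpow_neg, inv_inv]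
    · have h6 : (r.natAbs : ℤ) = -r := by omega
      rw [← zpow_natCast, h6, neg_one_mul, neg_neg, hyz, ← h4]
  · refine ⟨1, r.natAbs, by decide, hk, by decide, ?_⟩
    have h7 : s = -r := by omega
    rcases Int.natAbs_eq r with h5 | h5
    · rw [← zpow_natCast, ← h5, one_mul, hyz, h7, neg_neg]
    · have h6 : (r.natAbs : ℤ) = -r := by omega
      rw [← zpow_natCast, h6, one_mul, zpow_neg, zpow_neg, hyz, h7, neg_neg]

end

theorem tors_prod {Ω : Type} [Field Ω] {y : Ω} (hy : y ≠ 0) (S : Multiset Ω)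
    (h : ∀ z ∈ S, ∃ (e : ℤ) (k : ℕ), Odd e ∧ 0 < k ∧ z ^ k = y ^ (e * k)) :
    ∃ (e : ℤ) (k : ℕ), 0 < k ∧ (Odd e ↔ Odd S.card) ∧ S.prod ^ k = y ^ (e * k) := by
  induction S using Multiset.induction_on with
  | empty => exact ⟨0, 1, one_pos, by simp, by simp⟩
  | cons z S ih =>
    obtain ⟨e, k, hk, he, h1⟩ := ih fun w hw => h w (Multiset.mem_cons_of_mem hw)
    obtain ⟨e', k', he', hk', h1'⟩ := h z (Multiset.mem_cons_self z S)
    refine ⟨e' + e, k' * k, Nat.mul_pos hk' hk, ?_, ?_⟩
    · rw [Multiset.card_cons, Int.odd_add, Nat.odd_add_one, ← he, Int.not_odd_iff_even]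
      simp [he']
    · rw [Multiset.prod_cons, mul_pow, pow_mul z, h1', mul_comm k' k, pow_mul S.prod, h1,
        ← zpow_natCast, ← zpow_natCast, ← zpow_mul, ← zpow_mul, ← zpow_add₀ hy]
      congr 1
      push_cast
      ring

theorem t_div : S_DIV := by
  intro L _ _ Dv _ _ _ x hodd hint hnorm hx
  classical
  have hintL : IsIntegral L x := Algebra.IsIntegral.isIntegral x
  have hirr : Irreducible (minpoly L x) := minpoly.irreducible hintL
  have hmon : (minpoly L x).Monic := minpoly.monic hintL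
  obtain ⟨t, ht, hprod⟩ := prod_roots x hnorm
  obtain ⟨P, hP⟩ : ∃ P, P = minpoly L x := ⟨_, rfl⟩
  rw [← hP] at hirr hmon ht hprod
  rw [ht, Nat.odd_mul] at hodd
  obtain ⟨hm, hto⟩ := hodd
  have ht0 : 0 < t := hto.pos
  have hm0 : 0 < P.natDegree := hm.pos
  -- the roots
  have hmin : ∀ z : AlgebraicClosure L, Polynomial.aeval z P = 0 → minpoly L z = P := by
    intro z hz
    exact (minpoly.eq_of_irreducible_of_monic hirr hz hmon).symm
  have hroot : ∀ z : AlgebraicClosure L, z ∈ P.aroots (AlgebraicClosure L) ↔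
      Polynomial.aeval z P = 0 := by
    intro z
    rw [Polynomial.mem_aroots]
    exact ⟨fun h => h.2, fun h => ⟨hirr.ne_zero, h⟩⟩
  have hcard : (P.aroots (AlgebraicClosure L)).card = P.natDegree := by
    have h1 := (IsAlgClosed.splits (P.map (algebraMap L (AlgebraicClosure L)))).natDegree_eq_card_roots
    rw [Polynomial.natDegree_map] at h1
    rw [Polynomial.aroots_def, ← h1]
  have hNT : ∀ z : AlgebraicClosure L, Polynomial.aeval z P = 0 → NT z := by
    intro z hz n hn h1
    apply hx n hn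
    have h2 : P ∣ Polynomial.X ^ n - 1 := by
      rw [← hmin z hz]
      apply minpoly.dvd
      simp [h1]
    obtain ⟨Q, hQ⟩ := h2
    have h3 : Polynomial.aeval x (Polynomial.X ^ n - 1 : Polynomial L) = 0 := by
      rw [hQ, map_mul, hP, minpoly.aeval, zero_mul]
    simpa [sub_eq_zero] using h3
  have hz0 : ∀ z : AlgebraicClosure L, Polynomial.aeval z P = 0 → z ≠ 0 := by
    intro z hz h0
    rw [← hroot, h0] at hz
    rw [Multiset.prod_eq_zero hz, zero_pow ht0.ne'] at hprod
    exact zero_ne_one hprod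
  have hzi : ∀ z : AlgebraicClosure L, Polynomial.aeval z P = 0 → IsIntegral ℤ z := by
    intro z hz
    obtain ⟨q, hq, hq'⟩ := hint
    have h1 : P ∣ q.map (algebraMap ℤ L) := by
      rw [hP]
      apply minpoly.dvd
      rw [Polynomial.aeval_map_algebraMap]
      exact hq'
    obtain ⟨Q, hQ⟩ := h1
    refine ⟨q, hq, ?_⟩
    have h2 : Polynomial.aeval z (q.map (algebraMap ℤ L)) = 0 := by rw [hQ, map_mul, hz, zero_mul]
    rw [Polynomial.aeval_map_algebraMap] at h2
    exact h2
  have hzu : ∀ z : AlgebraicClosure L, Polynomial.aeval z P = 0 → IsIntegral ℤ z⁻¹ := by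
    intro z hz
    obtain ⟨R, hR⟩ := Multiset.exists_cons_of_mem ((hroot z).2 hz)
    have h1 : z * (R.prod * (P.aroots (AlgebraicClosure L)).prod ^ (t - 1)) = 1 := by
      rw [← mul_assoc, ← Multiset.prod_cons, ← hR, ← pow_succ', Nat.sub_add_cancel ht0, hprod]
    rw [inv_eq_of_mul_eq_one_right h1]
    refine IsIntegral.mul (IsIntegral.multiset_prod fun w hw => hzi w ?_)
      (IsIntegral.pow (IsIntegral.multiset_prod fun w hw => hzi w ((hroot w).1 hw)) _)
    rw [← hroot, hR]
    exact Multiset.mem_cons_of_mem hw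
  -- conjugacy
  have hconj : ∀ y z : AlgebraicClosure L, Polynomial.aeval y P = 0 → Polynomial.aeval z P = 0 →
      ∃ σ : AlgebraicClosure L ≃ₐ[L] AlgebraicClosure L, σ y = z ∧ ∃ q : ℕ, 0 < q ∧
        (σ ^ q) y = y := by
    intro y z hy hz
    obtain ⟨σ, hσ⟩ := isConjRoot_iff_exists_algEquiv.1
      (show IsConjRoot L z y by rw [IsConjRoot, hmin y hy, hmin z hz])
    refine ⟨σ, hσ, ?_⟩
    have h1 : ∀ k : ℕ, (σ ^ k) y ∈ (P.aroots (AlgebraicClosure L)).toFinset := by
      intro k
      rw [Multiset.mem_toFinset, hroot]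
      have : Polynomial.aeval ((σ ^ k) y) P = (σ ^ k) (Polynomial.aeval y P) :=
        Polynomial.aeval_algHom_apply ((σ ^ k : AlgebraicClosure L ≃ₐ[L] AlgebraicClosure L) :
          AlgebraicClosure L →ₐ[L] AlgebraicClosure L) y P
      rw [this, hy, map_zero]
    obtain ⟨a, b, hab, heq⟩ := Finite.exists_ne_map_eq_of_infinite
      (fun k : ℕ => (⟨(σ ^ k) y, h1 k⟩ : (P.aroots (AlgebraicClosure L)).toFinset))
    have heq' : (σ ^ a) y = (σ ^ b) y := congrArg Subtype.val heq
    have key : ∀ a b : ℕ, a < b → (σ ^ a) y = (σ ^ b) y → ∃ q : ℕ, 0 < q ∧ (σ ^ q) y = y := by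
      intro a b hab h
      refine ⟨b - a, by omega, ?_⟩
      apply (σ ^ a).injective
      rw [h]
      have : σ ^ b = σ ^ a * σ ^ (b - a) := by rw [← pow_add]; congr 1; omega
      rw [this]; rfl
    rcases lt_or_gt_of_ne hab with h | h
    · exact key a b h heq'
    · exact key b a h heq'.symm
  -- a root
  obtain ⟨y, hy⟩ : ∃ y, y ∈ P.aroots (AlgebraicClosure L) := by
    rw [← Multiset.card_pos_iff_exists_mem, hcard]
    exact hm0
  rw [hroot] at hy
  obtain ⟨z, hz, hyz⟩ : ∃ z : AlgebraicClosure L, Polynomial.aeval z P = 0 ∧ Ind y z := by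
    by_contra hcon
    push Not at hcon
    obtain ⟨e, k, hk, he, h1⟩ := tors_prod (hz0 y hy) (P.aroots (AlgebraicClosure L)) (by
      intro z hz
      rw [hroot] at hz
      obtain ⟨σ, hσ, q, hq, hq'⟩ := hconj y z hy hz
      obtain ⟨e, k, h1, h2, h3, h4⟩ := tors (hNT y hy) (hz0 y hy) σ hσ q hq hq' (hcon z hz)
      exact ⟨e, k, h1, h2, h4⟩)
    have he' : Odd e := he.2 (by rw [hcard]; exact hm)
    have h2 : y ^ (e * k * t) = 1 := by
      rw [zpow_mul, ← h1, zpow_natCast, ← pow_mul, mul_comm, pow_mul, hprod, one_pow]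
    have h3 := (hNT y hy).zpow h2
    have h4 : e ≠ 0 := by rintro rfl; simp at he'
    have h5 : (k : ℤ) ≠ 0 := by exact_mod_cast hk.ne'
    have h6 : (t : ℤ) ≠ 0 := by exact_mod_cast ht0.ne'
    exact mul_ne_zero (mul_ne_zero h4 h5) h6 h3
  -- the field
  have hyI : IsIntegral L y := ⟨P, hmon, hy⟩
  have hzI : IsIntegral L z := ⟨P, hmon, hz⟩
  have hdy : finrank L (IntermediateField.adjoin L {y}) = P.natDegree := by
    rw [IntermediateField.adjoin.finrank hyI, hmin y hy]
  have hdz : finrank L (IntermediateField.adjoin L {z}) = P.natDegree := by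
    rw [IntermediateField.adjoin.finrank hzI, hmin z hz]
  obtain ⟨E, hE⟩ : ∃ E : IntermediateField L (AlgebraicClosure L),
      E = IntermediateField.adjoin L {y} ⊔ IntermediateField.adjoin L {z} := ⟨_, rfl⟩
  have hyE : y ∈ E := by
    rw [hE]
    exact (le_sup_left : IntermediateField.adjoin L {y} ≤ _)
      (IntermediateField.mem_adjoin_simple_self L y)
  have hzE : z ∈ E := by
    rw [hE]
    exact (le_sup_right : IntermediateField.adjoin L {z} ≤ _)
      (IntermediateField.mem_adjoin_simple_self L z)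
  have hfd1 : FiniteDimensional L (IntermediateField.adjoin L {y}) :=
    IntermediateField.adjoin.finiteDimensional hyI
  have hfd2 : FiniteDimensional L (IntermediateField.adjoin L {z}) :=
    IntermediateField.adjoin.finiteDimensional hzI
  have hfE : FiniteDimensional L E := by
    rw [hE]
    exact IntermediateField.finiteDimensional_sup _ _
  have hdeg : finrank L E ≤ finrank L Dv ^ 2 := by
    have h1 := IntermediateField.finrank_sup_le (IntermediateField.adjoin L {y})
      (IntermediateField.adjoin L {z})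
    rw [hdy, hdz, ← hE] at h1
    rw [ht]
    calc finrank L E ≤ P.natDegree * P.natDegree := h1
      _ ≤ (P.natDegree * t) * (P.natDegree * t) :=
        Nat.mul_le_mul (Nat.le_mul_of_pos_right _ ht0) (Nat.le_mul_of_pos_right _ ht0)
      _ = _ := by rw [sq]
  have hnf : NumberField E := NumberField.of_module_finite L E
  have hinj : Function.Injective (algebraMap E (AlgebraicClosure L)) :=
    (algebraMap E (AlgebraicClosure L)).injective
  have hI : ∀ w : E, IsIntegral ℤ (w : AlgebraicClosure L) → IsIntegral ℤ w := by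
    intro w hw
    exact (isIntegral_algebraMap_iff (R := ℤ) hinj).1 hw
  refine ⟨E, inferInstance, hnf, inferInstance, ⟨y, hyE⟩, ⟨z, hzE⟩, hdeg, ⟨?_, ?_, ?_⟩,
    ⟨?_, ?_, ?_⟩, ?_, ?_, ?_⟩
  · intro h; exact hz0 y hy (congrArg Subtype.val h)
  · exact hI _ (hzi y hy)
  · exact hI _ (by simpa using hzu y hy)
  · intro h; exact hz0 z hz (congrArg Subtype.val h)
  · exact hI _ (hzi z hz)
  · exact hI _ (by simpa using hzu z hz)
  · intro r s h
    apply hyz r s
    have h1 := congrArg (algebraMap E (AlgebraicClosure L)) h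
    rw [map_mul, map_zpow₀, map_zpow₀, map_one] at h1
    exact h1
  · rw [← hP]
    apply hinj
    rw [← Polynomial.aeval_algebraMap_apply, map_zero]
    exact hy
  · rw [← hP]
    apply hinj
    rw [← Polynomial.aeval_algebraMap_apply, map_zero]
    exact hz

end Pool.Agent.N42.RT
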